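import Mathlib

open Set Metric MeasureTheory Module
open scoped ENNReal NNReal Real

namespace Pool.Agent.W533.Iso

noncomputable section

/-- The volume of the unit ball of `ℝ ^ m`. -/
def omega (m : ℕ) : ℝ := (volume (ball (0 : EuclideanSpace ℝ (Fin m)) 1)).toReal

lemma volume_unitBall (m : ℕ) (hm : m ≠ 0) :
    volume (ball (0 : EuclideanSpace ℝ (Fin m)) 1) =
      ENNReal.ofReal (√π ^ m / Real.Gamma (m / 2 + 1)) := by
  have : Nonempty (Fin m) := Fin.pos_iff_nonempty.mp (Nat.pos_of_ne_zero hm)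
  rw [EuclideanSpace.volume_ball]
  simp

lemma omega_eq (m : ℕ) (hm : m ≠ 0) : omega m = √π ^ m / Real.Gamma (m / 2 + 1) := by
  have h : 0 ≤ √π ^ m / Real.Gamma (m / 2 + 1) := by positivity
  rw [omega, volume_unitBall m hm, ENNReal.toReal_ofReal h]

lemma omega_pos (m : ℕ) (hm : m ≠ 0) : 0 < omega m := by
  have h2 : 0 < Real.Gamma (m / 2 + 1) := Real.Gamma_pos_of_pos (by positivity)
  rw [omega_eq m hm]
  positivity

lemma ofReal_omega (m : ℕ) (hm : m ≠ 0) :
    ENNReal.ofReal (omega m) = volume (ball (0 : EuclideanSpace ℝ (Fin m)) 1) := by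
  rw [omega_eq m hm, volume_unitBall m hm]

lemma omega_add_two (m : ℕ) (hm : m ≠ 0) : omega (m + 2) = 2 * π / (m + 2) * omega m := by
  rw [omega_eq m hm, omega_eq (m + 2) (by omega)]
  have h1 : ((m + 2 : ℕ) : ℝ) / 2 + 1 = (m / 2 + 1) + 1 := by push_cast; ring
  have h2 : 0 < Real.Gamma ((m : ℝ) / 2 + 1) := Real.Gamma_pos_of_pos (by positivity)
  rw [h1, Real.Gamma_add_one (by positivity), pow_add, Real.sq_sqrt Real.pi_pos.le]
  field_simp

lemma omega_one : omega 1 = 2 := by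
  rw [omega_eq 1 one_ne_zero]
  have h : ((1 : ℕ) : ℝ) / 2 + 1 = 1 / 2 + 1 := by push_cast; ring
  rw [h, Real.Gamma_add_one (by norm_num), Real.Gamma_one_half_eq]
  have : √π ≠ 0 := (Real.sqrt_pos.2 Real.pi_pos).ne'
  field_simp

lemma omega_two : omega 2 = π := by
  rw [omega_eq 2 two_ne_zero]
  have h : ((2 : ℕ) : ℝ) / 2 + 1 = 1 + 1 := by push_cast; ring
  rw [h, Real.Gamma_add_one (by norm_num), Real.Gamma_one, Real.sq_sqrt Real.pi_pos.le]
  simp

lemma omega_three : omega 3 = 4 * π / 3 := by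
  rw [omega_add_two 1 one_ne_zero, omega_one]
  push_cast
  ring

/-- Ratio of consecutive volumes. -/
def Q (n : ℕ) : ℝ := omega (n + 1) / omega n

lemma Q_pos (n : ℕ) (hn : n ≠ 0) : 0 < Q n := div_pos (omega_pos _ (by omega)) (omega_pos _ hn)

lemma Q_add_two (n : ℕ) (hn : n ≠ 0) : Q (n + 2) = (n + 2) / (n + 3) * Q n := by
  rw [Q, Q, omega_add_two n hn, show n + 2 + 1 = (n + 1) + 2 from rfl,
    omega_add_two (n + 1) (by omega)]
  have := (omega_pos n hn).ne'
  have := Real.pi_pos.ne'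
  push_cast
  field_simp
  ring

lemma Q_one : Q 1 = π / 2 := by rw [Q, omega_one, omega_two]

lemma Q_two : Q 2 = 4 / 3 := by
  rw [Q, omega_two, omega_three]
  have := Real.pi_pos.ne'
  field_simp

lemma Q_three : Q 3 = 3 * π / 8 := by
  rw [Q_add_two 1 (by norm_num), Q_one]; push_cast; ring
lemma Q_four : Q 4 = 16 / 15 := by
  rw [Q_add_two 2 (by norm_num), Q_two]; push_cast; ring
lemma Q_five : Q 5 = 5 * π / 16 := by
  rw [Q_add_two 3 (by norm_num), Q_three]; push_cast; ring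
lemma Q_six : Q 6 = 32 / 35 := by
  rw [Q_add_two 4 (by norm_num), Q_four]; push_cast; ring
lemma Q_seven : Q 7 = 35 * π / 128 := by
  rw [Q_add_two 5 (by norm_num), Q_five]; push_cast; ring
lemma Q_eight : Q 8 = 256 / 315 := by
  rw [Q_add_two 6 (by norm_num), Q_six]; push_cast; ring
lemma Q_nine : Q 9 = 63 * π / 256 := by
  rw [Q_add_two 7 (by norm_num), Q_seven]; push_cast; ring
lemma Q_ten : Q 10 = 512 / 693 := by
  rw [Q_add_two 8 (by norm_num), Q_eight]; push_cast; ring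

lemma Q_sq_bound : ∀ n : ℕ, 9 ≤ n → Q n ^ 2 * (n + 5 / 3) ≤ 6.38 := by
  intro n
  induction n using Nat.strong_induction_on with
  | _ n ih =>
    intro hn
    rcases Nat.lt_or_ge n 11 with h | h
    · interval_cases n
      · rw [Q_nine]
        have h1 := Real.pi_lt_d4
        have h2 := Real.pi_pos
        have h3 : π ^ 2 < 3.1416 ^ 2 := by
          apply pow_lt_pow_left₀ (by linarith) h2.le two_ne_zero
        push_cast
        nlinarith
      · rw [Q_ten]
        norm_num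
    · obtain ⟨k, rfl⟩ : ∃ k, n = k + 2 := ⟨n - 2, by omega⟩
      have h1 := ih k (by omega) (by omega)
      rw [Q_add_two k (by omega)]
      have hk : (9 : ℝ) ≤ k := by exact_mod_cast (by omega : 9 ≤ k)
      have h3 : ((k : ℝ) + 2) ^ 2 * (k + 11 / 3) ≤ (k + 3) ^ 2 * (k + 5 / 3) := by
        nlinarith
      have h4 : (((k : ℝ) + 2) / (k + 3)) ^ 2 * (k + 11 / 3) ≤ k + 5 / 3 := by
        rw [div_pow, div_mul_eq_mul_div, div_le_iff₀ (by positivity)]
        linarith
      push_cast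
      calc ((k + 2) / (k + 3) * Q k) ^ 2 * ((k : ℝ) + 2 + 5 / 3)
          = Q k ^ 2 * ((((k : ℝ) + 2) / (k + 3)) ^ 2 * (k + 11 / 3)) := by ring
        _ ≤ Q k ^ 2 * (k + 5 / 3) := by gcongr
        _ ≤ 6.38 := h1

lemma Q_mul_exp_lt (n : ℕ) (hn : 11 ≤ n) : Q n * Real.exp 1 < 2 := by
  have h1 := Q_sq_bound n (by omega)
  have h2 : (11 : ℝ) ≤ n := by exact_mod_cast hn
  have h3 := Q_pos n (by omega)
  have h4 : Q n ^ 2 * (38 / 3) ≤ 6.38 := by
    refine le_trans ?_ h1
    gcongr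
    linarith
  have h5 := Real.exp_one_lt_d9
  have h6 := Real.exp_pos 1
  have h7 : (Q n * Real.exp 1) ^ 2 < 2 ^ 2 := by
    have h8 : Real.exp 1 ^ 2 < 2.7182818286 ^ 2 := pow_lt_pow_left₀ h5 h6.le two_ne_zero
    rw [mul_pow]
    calc Q n ^ 2 * Real.exp 1 ^ 2 ≤ Q n ^ 2 * 2.7182818286 ^ 2 := by gcongr
      _ ≤ (6.38 * (3 / 38)) * 2.7182818286 ^ 2 := by
        gcongr
        linarith
      _ < 2 ^ 2 := by norm_num
  exact lt_of_pow_lt_pow_left₀ 2 (by norm_num) h7

/-- Key numerical inequality. -/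
lemma Q_key (d n : ℕ) (hd : 10 ≤ d) (hn : 1 ≤ n) (hnd : n + 1 ≤ d) :
    Q n * ((n : ℝ) + 1) ^ (n + 1) < n ^ n * (2 * d) := by
  have hd' : (10 : ℝ) ≤ d := by exact_mod_cast hd
  rcases Nat.lt_or_ge n 11 with h | h
  · have h1 := Real.pi_lt_d4
    have h2 := Real.pi_pos
    rcases Nat.lt_or_ge n 10 with h' | h'
    · have h3 : Q n * ((n : ℝ) + 1) ^ (n + 1) < n ^ n * 20 := by
        interval_cases n
        · rw [Q_one]; norm_num; linarith
        · rw [Q_two]; norm_num
        · rw [Q_three]; norm_num; linarith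
        · rw [Q_four]; norm_num
        · rw [Q_five]; norm_num; linarith
        · rw [Q_six]; norm_num
        · rw [Q_seven]; norm_num; linarith
        · rw [Q_eight]; norm_num
        · rw [Q_nine]; norm_num; linarith
      refine h3.trans_le ?_
      gcongr
      linarith
    · obtain rfl : n = 10 := by omega
      have hd2 : (11 : ℝ) ≤ d := by exact_mod_cast hnd
      have h3 : Q 10 * (((10 : ℕ) : ℝ) + 1) ^ (10 + 1) < ((10 : ℕ) : ℝ) ^ 10 * 22 := by
        rw [Q_ten]; norm_num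
      refine h3.trans_le ?_
      gcongr
      linarith
  · have hn0 : (0 : ℝ) < n := by positivity
    have hnd' : ((n : ℝ) + 1) ≤ d := by exact_mod_cast hnd
    have h1 : ((n : ℝ) + 1) ^ n ≤ Real.exp 1 * n ^ n := by
      have h2 : ((1 : ℝ) / n + 1) ^ n ≤ Real.exp (1 / n) ^ n :=
        pow_le_pow_left₀ (by positivity) (Real.add_one_le_exp _) n
      have h3 : Real.exp (1 / (n : ℝ)) ^ n = Real.exp 1 := by
        rw [← Real.exp_nat_mul]
        congr 1
        field_simp
      rw [h3] at h2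
      calc ((n : ℝ) + 1) ^ n = ((1 : ℝ) / n + 1) ^ n * n ^ n := by
            rw [← mul_pow]; congr 1; field_simp; ring
        _ ≤ Real.exp 1 * n ^ n := by gcongr
    have hQ := Q_pos n (by omega)
    calc Q n * ((n : ℝ) + 1) ^ (n + 1) = Q n * ((n : ℝ) + 1) ^ n * (n + 1) := by ring
      _ ≤ Q n * (Real.exp 1 * n ^ n) * (n + 1) := by gcongr
      _ = (Q n * Real.exp 1) * (n ^ n * (n + 1)) := by ring
      _ < 2 * (n ^ n * (n + 1)) := by
        gcongr
        exact Q_mul_exp_lt n h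
      _ ≤ n ^ n * (2 * d) := by
        have : (0 : ℝ) < n ^ n := by positivity
        nlinarith

/-- `omega m * (m / (2 * d)) ^ m`. -/
def aseq (d m : ℕ) : ℝ := omega m * (m / (2 * d)) ^ m

lemma aseq_succ_lt (d n : ℕ) (hd : 10 ≤ d) (hn : 1 ≤ n) (hnd : n + 1 ≤ d) :
    aseq d (n + 1) < aseq d n := by
  have hd' : (0 : ℝ) < d := by
    have : 0 < d := by omega
    exact_mod_cast this
  have h := Q_key d n hd hn hnd
  have hω := omega_pos n (by omega)
  rw [Q, div_mul_eq_mul_div, div_lt_iff₀ hω] at h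
  rw [aseq, aseq, div_pow, div_pow, mul_div_assoc', mul_div_assoc', div_lt_div_iff₀ (by positivity)
    (by positivity)]
  push_cast
  calc omega (n + 1) * ((n : ℝ) + 1) ^ (n + 1) * (2 * d) ^ n
      < (n ^ n * (2 * d) * omega n) * (2 * d) ^ n := by gcongr
    _ = omega n * (n : ℝ) ^ n * (2 * d) ^ (n + 1) := by ring

lemma aseq_lt (d m : ℕ) (hd : 10 ≤ d) (hm : 1 ≤ m) (hmd : m < d) : aseq d d < aseq d m := by
  have : ∀ k, m + 1 + k ≤ d → aseq d (m + 1 + k) < aseq d m := by
    intro k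
    induction k with
    | zero => intro h; exact aseq_succ_lt d m hd hm h
    | succ k ih =>
      intro h
      exact (aseq_succ_lt d (m + 1 + k) hd (by omega) (by omega)).trans (ih (by omega))
  obtain ⟨k, hk⟩ := Nat.exists_eq_add_of_le (show m + 1 ≤ d from hmd)
  rw [show aseq d d = aseq d (m + 1 + k) by rw [← hk]]
  exact this k hk.ge

lemma aseq_self (d : ℕ) (hd : 0 < d) : aseq d d = omega d / 2 ^ d := by
  have hd' : (0 : ℝ) < d := by exact_mod_cast hd
  rw [aseq, show ((d : ℝ) / (2 * d)) = 1 / 2 by field_simp]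
  rw [one_div, inv_pow]
  rfl

end

end Pool.Agent.W533.Iso
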