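import Mathlib

open Set Metric MeasureTheory Module
open scoped Pointwise ENNReal NNReal RealInnerProductSpace

namespace Pool.Agent.W533.Iso

noncomputable section

variable {V : Type*} [NormedAddCommGroup V] [InnerProductSpace ℝ V]

/-- Radial projection to the unit sphere is 1-Lipschitz outside the open unit ball. -/
lemma norm_normalize_sub_le {x y : V} (hx : 1 ≤ ‖x‖) (hy : 1 ≤ ‖y‖) :
    ‖‖x‖⁻¹ • x - ‖y‖⁻¹ • y‖ ≤ ‖x - y‖ := by
  have hx0 : 0 < ‖x‖ := by linarith
  have hy0 : 0 < ‖y‖ := by linarith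
  have h1 : ‖‖x‖⁻¹ • x - ‖y‖⁻¹ • y‖ ^ 2 = 2 - 2 * (⟪x, y⟫ / (‖x‖ * ‖y‖)) := by
    rw [@norm_sub_sq_real]
    simp only [norm_smul, norm_inv, norm_norm, real_inner_smul_left, real_inner_smul_right]
    rw [inv_mul_cancel₀ hx0.ne', inv_mul_cancel₀ hy0.ne']
    field_simp
    ring
  have h2 : ‖x - y‖ ^ 2 = ‖x‖ ^ 2 + ‖y‖ ^ 2 - 2 * ⟪x, y⟫ := by
    rw [@norm_sub_sq_real]; ring
  have h3 : ⟪x, y⟫ ≤ ‖x‖ * ‖y‖ := real_inner_le_norm x y
  have hab : 1 ≤ ‖x‖ * ‖y‖ := by nlinarith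
  have h4 : ⟪x, y⟫ / (‖x‖ * ‖y‖) * (‖x‖ * ‖y‖) = ⟪x, y⟫ := by
    field_simp
  have h5 : ⟪x, y⟫ / (‖x‖ * ‖y‖) ≤ 1 := by
    rw [div_le_one (by positivity)]
    exact h3
  have h6 : ‖‖x‖⁻¹ • x - ‖y‖⁻¹ • y‖ ^ 2 ≤ ‖x - y‖ ^ 2 := by
    rw [h1, h2]
    nlinarith [sq_nonneg (‖x‖ - ‖y‖), mul_nonneg (sub_nonneg.2 h5) (sub_nonneg.2 hab)]
  exact (pow_le_pow_iff_left₀ (norm_nonneg _) (norm_nonneg _) two_ne_zero).1 h6

/-- The open cone over a subset of the unit sphere. -/
def cone (P : Set V) : Set V := {x | 0 < ‖x‖ ∧ ‖x‖ < 1 ∧ ‖x‖⁻¹ • x ∈ P}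

variable [MeasurableSpace V] [BorelSpace V] [FiniteDimensional ℝ V]

lemma measurableSet_cone {P : Set V} (hP : MeasurableSet P) : MeasurableSet (cone P) := by
  have h1 : MeasurableSet {x : V | 0 < ‖x‖} := measurableSet_lt measurable_const measurable_norm
  have h2 : MeasurableSet {x : V | ‖x‖ < 1} := measurableSet_lt measurable_norm measurable_const
  have h3 : Measurable (fun x : V => ‖x‖⁻¹ • x) := by fun_prop
  exact h1.inter (h2.inter (h3 hP))

omit [InnerProductSpace ℝ V] [FiniteDimensional ℝ V] in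
lemma lipschitzOn_euclideanHausdorffMeasure_image_le {n : ℕ} {f : V → V} {s : Set V}
    (hf : LipschitzOnWith 1 f s) : μHE[n] (f '' s) ≤ μHE[n] s := by
  have h := hf.hausdorffMeasure_image_le (d := (n : ℝ)) (by positivity)
  simp only [ENNReal.coe_one, ENNReal.one_rpow, one_mul] at h
  rw [Measure.euclideanHausdorffMeasure_def, Measure.smul_apply, Measure.smul_apply]
  gcongr

lemma patch_le (n : ℕ) (hn : finrank ℝ V = n + 1) {p : V} (hp : ‖p‖ = 1) {c : ℝ} (hc : 0 < c)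
    {P : Set V} (hPm : MeasurableSet P) (hP : P ⊆ sphere 0 1) (hPc : ∀ x ∈ P, c ≤ ⟪p, x⟫) :
    ENNReal.ofReal (c ^ (n + 1) / (n + 1)) * μHE[n] P ≤ volume (cone P) := by
  have hnorm : ∀ x ∈ P, ‖x‖ = 1 := fun x hx => by simpa using hP hx
  have hle1 : ∀ x ∈ P, ⟪p, x⟫ ≤ 1 := fun x hx => by
    have := real_inner_le_norm p x
    rw [hp, hnorm x hx] at this
    linarith
  set T : Set V := (fun x => (⟪p, x⟫)⁻¹ • x) '' P with hT
  -- the radial projection of `T` is `P`
  have h1 : μHE[n] P ≤ μHE[n] T := by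
    have hlip : LipschitzOnWith 1 (fun x : V => ‖x‖⁻¹ • x) T := by
      have hT1 : ∀ y ∈ T, 1 ≤ ‖y‖ := by
        rintro _ ⟨x, hx, rfl⟩
        have h0 : 0 < ⟪p, x⟫ := hc.trans_le (hPc x hx)
        simp only [norm_smul, norm_inv, Real.norm_eq_abs, abs_of_pos h0, hnorm x hx, mul_one]
        exact (one_le_inv₀ h0).2 (hle1 x hx)
      rw [lipschitzOnWith_iff_norm_sub_le]
      intro x hx y hy
      simpa using norm_normalize_sub_le (hT1 x hx) (hT1 y hy)
    refine le_trans (le_of_eq ?_) (lipschitzOn_euclideanHausdorffMeasure_image_le hlip)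
    congr 1
    rw [hT, image_image]
    ext x
    simp only [mem_image]
    constructor
    · intro hx
      refine ⟨x, hx, ?_⟩
      have h0 : 0 < ⟪p, x⟫ := hc.trans_le (hPc x hx)
      rw [norm_smul, hnorm x hx, norm_inv, Real.norm_eq_abs, abs_of_pos h0, mul_one, inv_inv,
        smul_smul, mul_inv_cancel₀ h0.ne', one_smul]
    · rintro ⟨y, hy, rfl⟩
      have h0 : 0 < ⟪p, y⟫ := hc.trans_le (hPc y hy)
      rw [norm_smul, hnorm y hy, norm_inv, Real.norm_eq_abs, abs_of_pos h0, mul_one, inv_inv,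
        smul_smul, mul_inv_cancel₀ h0.ne', one_smul]
      exact hy
  have hp0 : p ≠ 0 := by
    rintro rfl
    simp at hp
  -- slices of the cone
  have h2 : ∀ h ∈ Ioo (0 : ℝ) c, ENNReal.ofReal (h ^ n) * μHE[n] T ≤
      μHE[finrank ℝ V - 1] (cone P ∩ AffineSubspace.mk' (h • p +ᵥ (0 : V)) (ℝ ∙ p)ᗮ) := by
    intro h hh
    have h3 : h • T ⊆ cone P ∩ AffineSubspace.mk' (h • p +ᵥ (0 : V)) (ℝ ∙ p)ᗮ := by
      rintro _ ⟨_, ⟨x, hx, rfl⟩, rfl⟩
      have h0 : 0 < ⟪p, x⟫ := hc.trans_le (hPc x hx)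
      have hn1 : ‖h • (⟪p, x⟫)⁻¹ • x‖ = h / ⟪p, x⟫ := by
        rw [norm_smul, norm_smul, hnorm x hx, norm_inv, Real.norm_eq_abs, Real.norm_eq_abs,
          abs_of_pos h0, abs_of_pos hh.1, mul_one, div_eq_mul_inv]
      refine ⟨⟨?_, ?_, ?_⟩, ?_⟩
      · change 0 < ‖h • (⟪p, x⟫)⁻¹ • x‖
        rw [hn1]
        exact div_pos hh.1 h0
      · change ‖h • (⟪p, x⟫)⁻¹ • x‖ < 1
        rw [hn1, div_lt_one h0]
        exact hh.2.trans_le (hPc x hx)
      · change ‖h • (⟪p, x⟫)⁻¹ • x‖⁻¹ • h • (⟪p, x⟫)⁻¹ • x ∈ P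
        rw [hn1, smul_smul, smul_smul]
        have : (h / ⟪p, x⟫)⁻¹ * h * (⟪p, x⟫)⁻¹ = 1 := by
          have := hh.1.ne'
          field_simp
        rw [this, one_smul]
        exact hx
      · change h • (⟪p, x⟫)⁻¹ • x ∈ AffineSubspace.mk' (h • p +ᵥ (0 : V)) (ℝ ∙ p)ᗮ
        rw [AffineSubspace.mem_mk', Submodule.mem_orthogonal_singleton_iff_inner_right]
        simp only [vadd_eq_add, add_zero, vsub_eq_sub, inner_sub_right, real_inner_smul_right,
          real_inner_self_eq_norm_sq, hp]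
        field_simp
        ring
    have h4 : μHE[n] (h • T) = ENNReal.ofReal (h ^ n) * μHE[n] T := by
      rw [Measure.euclideanHausdorffMeasure_smul₀ n hh.1.ne']
      rw [ENNReal.smul_def, smul_eq_mul]
      congr 1
      have h6 : ((‖h‖₊ : ℝ≥0) : ℝ≥0∞) = ENNReal.ofReal h := by
        rw [← enorm_eq_nnnorm, ← ofReal_norm, Real.norm_eq_abs, abs_of_pos hh.1]
      rw [ENNReal.ofReal_pow hh.1.le, ENNReal.coe_pow, h6]
    rw [← h4, hn]
    exact measure_mono h3
  have h5 := EuclideanGeometry.euclideanHausdorffMeasure_eq_lintegral (V := V) (0 : V) hp0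
    (measurableSet_cone hPm)
  rw [InnerProductSpace.euclideanHausdorffMeasure_eq_volume] at h5
  have hp1 : ‖p‖ₑ = 1 := by rw [← ofReal_norm, hp]; simp
  rw [hp1, one_mul] at h5
  rw [h5]
  calc ENNReal.ofReal (c ^ (n + 1) / (n + 1)) * μHE[n] P
      ≤ ENNReal.ofReal (c ^ (n + 1) / (n + 1)) * μHE[n] T := by gcongr
    _ = ∫⁻ h in Ioo (0 : ℝ) c, ENNReal.ofReal (h ^ n) * μHE[n] T := by
        rw [lintegral_mul_const _ (by fun_prop)]
        congr 1
        rw [← ofReal_integral_eq_lintegral_ofReal]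
        · rw [← integral_Ioc_eq_integral_Ioo, ← intervalIntegral.integral_of_le hc.le, integral_pow]
          simp
        · exact ((continuous_pow n).integrableOn_Icc).mono_set Ioo_subset_Icc_self
        · filter_upwards [ae_restrict_mem measurableSet_Ioo] with x hx
          exact pow_nonneg hx.1.le _
    _ ≤ ∫⁻ h in Ioo (0 : ℝ) c,
          μHE[finrank ℝ V - 1] (cone P ∩ AffineSubspace.mk' (h • p +ᵥ (0 : V)) (ℝ ∙ p)ᗮ) :=
        setLIntegral_mono' measurableSet_Ioo h2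
    _ ≤ _ := setLIntegral_le_lintegral _ _

lemma sphere_le_aux (n : ℕ) (hn : finrank ℝ V = n + 1) {c : ℝ} (hc : 0 < c) (hc1 : c < 1) :
    ENNReal.ofReal (c ^ (n + 1) / (n + 1)) * μHE[n] (sphere (0 : V) 1) ≤
      volume (ball (0 : V) 1) := by
  have : Nontrivial V := Module.nontrivial_of_finrank_pos (R := ℝ) (by omega)
  have : Nonempty (sphere (0 : V) 1) := (NormedSpace.sphere_nonempty.2 zero_le_one).to_subtype
  set u : ℕ → sphere (0 : V) 1 := TopologicalSpace.denseSeq _ with hu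
  set U : ℕ → Set V := fun i => {y | c < ⟪(u i : V), y⟫} with hU
  have hUm : ∀ i, MeasurableSet (U i) := fun i =>
    measurableSet_lt measurable_const (by fun_prop)
  set P : ℕ → Set V := fun i => sphere (0 : V) 1 ∩ disjointed U i with hP
  have hPm : ∀ i, MeasurableSet (P i) := fun i =>
    isClosed_sphere.measurableSet.inter (MeasurableSet.disjointed hUm i)
  have hPd : Pairwise (Function.onFun Disjoint P) := by
    intro i j hij
    exact (disjoint_disjointed U hij).mono inter_subset_right inter_subset_right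
  have hcover : sphere (0 : V) 1 = ⋃ i, P i := by
    rw [hP, ← inter_iUnion, iUnion_disjointed]
    refine (inter_eq_left.2 ?_).symm
    intro x hx
    have hopen : IsOpen {y : sphere (0 : V) 1 | c < ⟪(y : V), x⟫} :=
      isOpen_lt continuous_const (by fun_prop)
    have hne : ({y : sphere (0 : V) 1 | c < ⟪(y : V), x⟫}).Nonempty := by
      refine ⟨⟨x, hx⟩, ?_⟩
      have : ‖x‖ = 1 := by simpa using hx
      simp only [mem_ofPred_eq, real_inner_self_eq_norm_sq, this]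
      simpa using hc1
    obtain ⟨i, hi⟩ := (TopologicalSpace.denseRange_denseSeq
      (sphere (0 : V) 1)).exists_mem_open hopen hne
    exact mem_iUnion.2 ⟨i, hi⟩
  have hconed : Pairwise (Function.onFun Disjoint (fun i => cone (P i))) := by
    intro i j hij
    refine Set.disjoint_left.2 ?_
    rintro x ⟨_, _, h1⟩ ⟨_, _, h2⟩
    exact Set.disjoint_left.1 (hPd hij) h1 h2
  calc ENNReal.ofReal (c ^ (n + 1) / (n + 1)) * μHE[n] (sphere (0 : V) 1)
      = ∑' i, ENNReal.ofReal (c ^ (n + 1) / (n + 1)) * μHE[n] (P i) := by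
        rw [hcover, measure_iUnion hPd hPm, ENNReal.tsum_mul_left]
    _ ≤ ∑' i, volume (cone (P i)) := by
        refine ENNReal.tsum_le_tsum fun i => ?_
        refine patch_le n hn (p := (u i : V)) (by simp) hc (hPm i)
          inter_subset_left ?_
        rintro x ⟨_, hx⟩
        exact (disjointed_subset U i hx).le
    _ = volume (⋃ i, cone (P i)) := (measure_iUnion hconed fun i => measurableSet_cone (hPm i)).symm
    _ ≤ volume (ball (0 : V) 1) := by
        refine measure_mono (iUnion_subset fun i => ?_)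
        rintro x ⟨_, hx, _⟩
        simpa using hx

/-- The area of the unit sphere is at most `n + 1` times the volume of the unit ball. -/
lemma sphere_le (n : ℕ) (hn : finrank ℝ V = n + 1) :
    μHE[n] (sphere (0 : V) 1) ≤ (n + 1) * volume (ball (0 : V) 1) := by
  have h1 : Filter.Tendsto (fun c : ℝ => ENNReal.ofReal (c ^ (n + 1) / (n + 1)))
      (nhdsWithin 1 (Iio 1)) (nhds (ENNReal.ofReal ((1 : ℝ) ^ (n + 1) / (n + 1)))) := by
    refine Filter.Tendsto.mono_left ?_ nhdsWithin_le_nhds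
    refine (ENNReal.continuous_ofReal.comp (by fun_prop)).tendsto _
  have h0 : ENNReal.ofReal ((1 : ℝ) ^ (n + 1) / (n + 1)) = (((n : ℝ≥0∞) + 1))⁻¹ := by
    rw [one_pow, one_div, ENNReal.ofReal_inv_of_pos (by positivity)]
    congr 1
    rw [ENNReal.ofReal_add (by positivity) zero_le_one]
    simp
  rw [h0] at h1
  have h2 : Filter.Tendsto (fun c : ℝ => ENNReal.ofReal (c ^ (n + 1) / (n + 1)) *
      μHE[n] (sphere (0 : V) 1)) (nhdsWithin 1 (Iio 1))
      (nhds ((((n : ℝ≥0∞) + 1))⁻¹ * μHE[n] (sphere (0 : V) 1))) := by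
    refine ENNReal.Tendsto.mul_const h1 (Or.inl ?_)
    simp
  have h3 : (((n : ℝ≥0∞) + 1))⁻¹ * μHE[n] (sphere (0 : V) 1) ≤ volume (ball (0 : V) 1) := by
    refine le_of_tendsto h2 ?_
    filter_upwards [Ioo_mem_nhdsLT (show (0 : ℝ) < 1 by norm_num)] with c hc
    exact sphere_le_aux n hn hc.1 hc.2
  rw [ENNReal.inv_mul_le_iff (by simp) (by simp)] at h3
  exact h3

/-- The area of a round sphere of radius `r`. -/
lemma sphere_le' (n : ℕ) (hn : finrank ℝ V = n + 1) (x : V) {r : ℝ} (hr : 0 < r) :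
    μHE[n] (sphere x r) ≤ ENNReal.ofReal (r ^ n) * ((n + 1) * volume (ball (0 : V) 1)) := by
  have h1 : sphere x r = (fun y => x + y) '' (r • sphere (0 : V) 1) := by
    rw [smul_sphere' hr.ne', smul_zero, Real.norm_eq_abs, abs_of_pos hr, mul_one]
    simp
  have h2 : Isometry (fun y : V => x + y) := isometry_add_left x
  rw [h1, h2.euclideanHausdorffMeasure_image, Measure.euclideanHausdorffMeasure_smul₀ n hr.ne',
    ENNReal.smul_def, smul_eq_mul]
  have h6 : ((‖r‖₊ : ℝ≥0) : ℝ≥0∞) = ENNReal.ofReal r := by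
    rw [← enorm_eq_nnnorm, ← ofReal_norm, Real.norm_eq_abs, abs_of_pos hr]
  rw [ENNReal.ofReal_pow hr.le, ENNReal.coe_pow, h6]
  gcongr
  exact sphere_le n hn

end

end Pool.Agent.W533.Iso
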