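import Mathlib

open Set Metric MeasureTheory Module
open scoped Pointwise ENNReal NNReal RealInnerProductSpace

namespace Pool.Agent.W533.Iso

noncomputable section

variable {V : Type*} [NormedAddCommGroup V] [InnerProductSpace ℝ V]

/-- The linear map that multiplies by `γ` along `n` and by `α` orthogonally to `n`. -/
def stretch (n : V) (α γ : ℝ) : V →ₗ[ℝ] V :=
  α • LinearMap.id + (γ - α) • (innerₛₗ ℝ n).smulRight n

lemma stretch_apply (n : V) (α γ : ℝ) (x : V) :
    stretch n α γ x = α • x + ((γ - α) * ⟪n, x⟫) • n := by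
  simp [stretch, smul_smul]

lemma inner_stretch {n : V} (hn : ‖n‖ = 1) (α γ : ℝ) (x : V) :
    ⟪n, stretch n α γ x⟫ = γ * ⟪n, x⟫ := by
  rw [stretch_apply, inner_add_right, real_inner_smul_right, real_inner_smul_right,
    real_inner_self_eq_norm_sq, hn]
  ring

lemma stretch_stretch {n : V} (hn : ‖n‖ = 1) (α γ α' γ' : ℝ) (x : V) :
    stretch n α γ (stretch n α' γ' x) = stretch n (α * α') (γ * γ') x := by
  rw [stretch_apply, inner_stretch hn, stretch_apply, stretch_apply]
  module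

lemma stretch_one_one (n x : V) : stretch n 1 1 x = x := by
  simp [stretch_apply]

lemma norm_stretch_sq {n : V} (hn : ‖n‖ = 1) (α γ : ℝ) (x : V) :
    ‖stretch n α γ x‖ ^ 2 = α ^ 2 * ‖x‖ ^ 2 + (γ ^ 2 - α ^ 2) * ⟪n, x⟫ ^ 2 := by
  rw [stretch_apply, @norm_add_sq_real]
  rw [norm_smul, norm_smul, hn, real_inner_smul_left, real_inner_smul_right,
    real_inner_comm, Real.norm_eq_abs, Real.norm_eq_abs, mul_pow, mul_pow, sq_abs, sq_abs]
  ring

lemma norm_stretch_le {n : V} (hn : ‖n‖ = 1) {α γ : ℝ} (hα : 0 ≤ α) (hγ : 0 ≤ γ) (h : γ ≤ α)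
    (x : V) : ‖stretch n α γ x‖ ≤ α * ‖x‖ := by
  have h1 := norm_stretch_sq hn α γ x
  have h2 : γ ^ 2 ≤ α ^ 2 := by gcongr
  have h3 : ‖stretch n α γ x‖ ^ 2 ≤ (α * ‖x‖) ^ 2 := by
    rw [h1, mul_pow]
    nlinarith [mul_nonneg (sub_nonneg.2 h2) (sq_nonneg ⟪n, x⟫)]
  exact (pow_le_pow_iff_left₀ (norm_nonneg _) (by positivity) two_ne_zero).1 h3

lemma det_stretch [FiniteDimensional ℝ V] {n : V} (hn : ‖n‖ = 1) {α : ℝ} (hα : α ≠ 0) (γ : ℝ) :
    LinearMap.det (stretch n α γ) = α ^ (finrank ℝ V) * (γ / α) := by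
  have h1 : stretch n α γ = α • LinearMap.transvection (((γ - α) / α) • innerₛₗ ℝ n) n := by
    ext x
    rw [stretch_apply]
    simp only [LinearMap.smul_apply, LinearMap.transvection.apply, LinearMap.coe_mk,
      smul_add, smul_smul]
    congr 2
    simp
    field_simp
  rw [h1, LinearMap.det_smul, LinearMap.transvection.det]
  congr 1
  simp only [LinearMap.smul_apply, innerₛₗ_apply_apply, real_inner_self_eq_norm_sq, hn]
  simp
  field_simp
  ring

end

end Pool.Agent.W533.Iso
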